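import Pool.Agent.Y734.EF.Rank

/-!
# Job EF: the inequality
-/

set_option autoImplicit false

namespace Pool.Agent.Y734.EF

open MvPolynomial Finset Filter Topology

/-- the number of exponents -/
noncomputable def sn (k : ℝ) : ℝ := (k + 1) * (k + 2) * (k + 3) / 6

theorem card_D' (k : ℕ) : ((D k).card : ℝ) = sn k := card_D k

/-- total weight of the exponents not divisible by `m` -/
theorem wsum_nd {k e : ℕ} (hk : e ≤ k) {m : Fin 4 →₀ ℕ} (hm : m.degree = e) (w : Fin 4 → ℝ) :
    ∑ a ∈ (D k).filter (fun a => ¬ m ≤ a), ∑ i, w i * (a i : ℝ) =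
      (∑ i, w i) * (k * sn k - (k - e) * sn (k - e)) / 4 - (∑ i, w i * (m i : ℝ)) * sn (k - e) := by
  rw [sum_nd hk hm, wsum_D]
  have h1 : ∑ a ∈ D (k - e), ∑ i, w i * (((a + m) i : ℕ) : ℝ) =
      ∑ a ∈ D (k - e), ∑ i, w i * (a i : ℝ) + (D (k - e)).card * ∑ i, w i * (m i : ℝ) := by
    rw [← nsmul_eq_mul, ← sum_const, ← sum_add_distrib]
    refine sum_congr rfl fun a _ => ?_
    rw [← sum_add_distrib]
    refine sum_congr rfl fun i _ => ?_
    rw [Finsupp.add_apply]
    push_cast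
    ring
  rw [h1, wsum_D, card_D', sn, sn]
  rw [Nat.cast_sub hk]
  unfold sn
  ring

theorem tendsto_T (W M e : ℝ) (he : 0 < e) :
    Tendsto (fun k : ℕ => (W * (k * sn k - (k - e) * sn (k - e)) / 4 - M * sn (k - e)) /
      (k * (sn k - sn (k - e)))) atTop (𝓝 ((W - M / e) / 3)) := by
  have ht : Tendsto (fun k : ℕ => ((k : ℝ))⁻¹) atTop (𝓝 0) := tendsto_inv_atTop_nhds_zero_nat
  set num : ℝ → ℝ := fun t => W * ((4 * e + (18 * e - 6 * e ^ 2) * t +
    (4 * e ^ 3 - 18 * e ^ 2 + 22 * e) * t ^ 2 + (-e ^ 4 + 6 * e ^ 3 - 11 * e ^ 2 + 6 * e) * t ^ 3) /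
      6) / 4 - M * ((1 - e * t + t) * (1 - e * t + 2 * t) * (1 - e * t + 3 * t) / 6) with hnum
  set den : ℝ → ℝ := fun t => (3 * e + (12 * e - 3 * e ^ 2) * t +
    (e ^ 3 - 6 * e ^ 2 + 11 * e) * t ^ 2) / 6 with hden
  have h1 : Tendsto num (𝓝 0) (𝓝 (num 0)) := by
    apply Continuous.tendsto
    rw [hnum]
    fun_prop
  have h2 : Tendsto den (𝓝 0) (𝓝 (den 0)) := by
    apply Continuous.tendsto
    rw [hden]
    fun_prop
  have hd0 : den 0 ≠ 0 := by
    have h5 : den 0 = e / 2 := by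
      rw [hden]
      ring
    rw [h5]
    positivity
  have h3 := (h1.comp ht).div (h2.comp ht) hd0
  have h4 : num 0 / den 0 = (W - M / e) / 3 := by
    rw [hnum, hden]
    field_simp
    ring
  rw [h4] at h3
  refine h3.congr' ?_
  filter_upwards [eventually_ge_atTop 1] with k hk
  have hk0 : (k : ℝ) ≠ 0 := by
    have : (0 : ℝ) < k := by exact_mod_cast hk
    exact this.ne'
  have e1 : (W * (k * sn k - (k - e) * sn (k - e)) / 4 - M * sn (k - e)) =
      (k : ℝ) ^ 3 * num (k : ℝ)⁻¹ := by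
    rw [hnum]
    unfold sn
    field_simp
    ring
  have e2 : (k : ℝ) * (sn k - sn (k - e)) = (k : ℝ) ^ 3 * den (k : ℝ)⁻¹ := by
    rw [hden]
    unfold sn
    field_simp
    ring
  rw [e1, e2, mul_div_mul_left _ _ (pow_ne_zero 3 hk0)]
  rfl

theorem lev_mono {Ω : Type} [Field Ω] [Algebra ℚ Ω] (x : Fin 4 → Ω) (w : Fin 4 → ℝ)
    (Lev : ℕ → Ω → ℝ → Prop) (h0 : Lev 0 1 0)
    (hmul : ∀ k l y z a b, Lev k y a → Lev l z b → Lev (k + l) (y * z) (a + b))
    (hx : ∀ i, Lev 1 (x i) (w i)) (a : Fin 4 →₀ ℕ) :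
    Lev a.degree (aeval x (monomial a (1 : ℚ))) (∑ i, w i * (a i : ℝ)) := by
  induction a using Finsupp.induction_linear with
  | zero =>
    simpa using h0
  | add f g hf hg =>
    have h1 := hmul _ _ _ _ _ _ hf hg
    rw [← map_mul, monomial_mul, one_mul, ← map_add, ← sum_add_distrib] at h1
    have h2 : ∑ i, (w i * (f i : ℝ) + w i * (g i : ℝ)) = ∑ i, w i * (((f + g) i : ℕ) : ℝ) := by
      refine sum_congr rfl fun i _ => ?_
      rw [Finsupp.add_apply]
      push_cast
      ring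
    rw [h2] at h1
    exact h1
  | single i n =>
    induction n with
    | zero => simpa using h0
    | succ n ih =>
      have h1 := hmul _ _ _ _ _ _ ih (hx i)
      have h2 : aeval x (monomial (Finsupp.single i n) (1 : ℚ)) * x i =
          aeval x (monomial (Finsupp.single i (n + 1)) (1 : ℚ)) := by
        rw [← X_pow_eq_monomial, ← X_pow_eq_monomial, map_pow, map_pow, aeval_X, pow_succ]
      have h3 : ∑ j, w j * ((Finsupp.single i n j : ℕ) : ℝ) + w i =
          ∑ j, w j * ((Finsupp.single i (n + 1) j : ℕ) : ℝ) := by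
        have h4 : ∀ n : ℕ, ∑ j, w j * ((Finsupp.single i n j : ℕ) : ℝ) = w i * n := by
          intro n
          rw [sum_eq_single i]
          · simp
          · intro j _ hj
            rw [Finsupp.single_eq_of_ne hj]
            simp
          · intro h; exact absurd (mem_univ _) h
        rw [h4, h4]
        push_cast
        ring
      have h5 : (Finsupp.single i n).degree + 1 = (Finsupp.single i (n + 1)).degree := by
        simp
      rw [h2, h3, h5] at h1
      exact h1

/-- EF -/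
theorem ef : EfStmt := by
  intro V _ Ω _ _ A x hA e he F hF m hm w Lev h0 hmul hx sst
  rcases isEmpty_or_nonempty V with hV | hV
  · simp
  have hmd : ∀ v, (m v).degree = e v := by
    intro v
    by_contra h
    exact mem_support_iff.1 (hm v).1 ((hF v).1.coeff_eq_zero h)
  have hrk : ∀ v (k : ℕ), e v ≤ k →
      (Module.finrank ℚ (A ^ k : Submodule ℚ Ω) : ℝ) = sn k - sn (k - e v) := by
    intro v k hk
    have h1 := finrank_pow (hF v) hk
    rw [hA v] at h1
    have h2 : (Module.finrank ℚ (A ^ k : Submodule ℚ Ω) : ℝ) + sn ((k - e v : ℕ) : ℝ) = sn k := by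
      rw [← card_D', ← card_D']
      exact_mod_cast h1
    rw [Nat.cast_sub hk] at h2
    linarith
  have hineq : ∀ k : ℕ, 1 ≤ k → (∀ v, e v ≤ k) →
      ∑ v, ((∑ i, w v i) * (k * sn k - (k - e v) * sn (k - e v)) / 4 -
        (∑ i, w v i * (m v i : ℝ)) * sn (k - e v)) ≤
          k * (Module.finrank ℚ (A ^ k : Submodule ℚ Ω) : ℝ) := by
    intro k hk hek
    have h1 := sst k (fun v => ((D k).filter fun a => ¬ m v ≤ a))
      (fun v a => aeval (x v) (monomial (a : Fin 4 →₀ ℕ) (1 : ℚ)))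
      (fun v a => ∑ i, w v i * ((a : Fin 4 →₀ ℕ) i : ℝ)) hk ?_ ?_ ?_ ?_
    · refine le_trans (le_of_eq ?_) h1
      refine sum_congr rfl fun v _ => ?_
      rw [← wsum_nd (hek v) (hmd v)]
      exact (sum_coe_sort ((D k).filter fun a => ¬ m v ≤ a)
        (fun a => ∑ i, w v i * (a i : ℝ))).symm
    · intro v
      rw [Fintype.card_coe]
      have h2 := finrank_pow (hF v) (hek v)
      rw [hA v] at h2
      have h3 := card_nd (hek v) (hmd v)
      omega
    · intro v
      exact li_nd (hF v) (hm v) k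
    · intro v a
      have h2 := mono_mem (x v) (mem_filter.1 a.2).1
      rwa [hA v] at h2
    · intro v a
      have h2 := lev_mono (x v) (w v) (Lev v) (h0 v) (hmul v) (hx v) (a : Fin 4 →₀ ℕ)
      rwa [mem_D.1 (mem_filter.1 a.2).1] at h2
  have hlim : Tendsto (fun k : ℕ => ∑ v, (((∑ i, w v i) * (k * sn k - (k - e v) * sn (k - e v)) / 4 -
        (∑ i, w v i * (m v i : ℝ)) * sn (k - e v)) / (k * (sn k - sn (k - e v))))) atTop
      (𝓝 (∑ v, (∑ i, w v i - (∑ i, w v i * (m v i : ℝ)) / e v) / 3)) := by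
    refine tendsto_finsetSum _ fun v _ => tendsto_T _ _ _ ?_
    exact_mod_cast he v
  have hle : ∑ v, (∑ i, w v i - (∑ i, w v i * (m v i : ℝ)) / e v) / 3 ≤ 1 := by
    refine le_of_tendsto hlim ?_
    filter_upwards [eventually_ge_atTop (∑ v, e v + 1)] with k hk
    have hek : ∀ v, e v ≤ k := fun v =>
      (single_le_sum (f := e) (fun _ _ => Nat.zero_le _) (mem_univ v)).trans (by omega)
    have hk1 : 1 ≤ k := by omega
    have h1 := hineq k hk1 hek
    set Fr : ℝ := (Module.finrank ℚ (A ^ k : Submodule ℚ Ω) : ℝ) with hFr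
    have h2 : ∀ v, sn k - sn (k - e v) = Fr := fun v => (hrk v k (hek v)).symm
    have hk0 : (0 : ℝ) < k := by exact_mod_cast hk1
    have hpos : 0 < Fr := by
      obtain ⟨v⟩ := hV
      rw [← h2 v]
      have h3 : (1 : ℝ) ≤ e v := by exact_mod_cast he v
      have h4 : (e v : ℝ) ≤ k := by exact_mod_cast hek v
      have h5 : 0 ≤ (k : ℝ) - e v := by linarith
      have h6 : (k : ℝ) - e v < k := by linarith
      unfold sn
      have h7 : ((k : ℝ) - e v + 1) * (k - e v + 2) < (k + 1) * (k + 2) := by nlinarith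
      have h8 : ((k : ℝ) - e v + 1) * (k - e v + 2) * (k - e v + 3) < (k + 1) * (k + 2) * (k + 3) := by
        apply mul_lt_mul'' h7 (by linarith) (by positivity) (by linarith)
      linarith
    rw [sum_congr rfl fun v _ => by rw [h2 v], ← sum_div]
    rw [div_le_one (mul_pos hk0 hpos)]
    exact h1
  rw [← sum_div] at hle
  linarith

end Pool.Agent.Y734.EF
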