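import Pool.Agent.Y734.EF.Dim

/-!
# Job EF: the dimension of `A ^ k`
-/

set_option autoImplicit false

namespace Pool.Agent.Y734.EF

open MvPolynomial Finset

variable {Ω : Type} [Field Ω] [Algebra ℚ Ω]

theorem monomial_li (k : ℕ) :
    LinearIndependent ℚ (fun a : D k => (monomial (a : Fin 4 →₀ ℕ) (1 : ℚ))) := by
  have h := (MvPolynomial.basisMonomials (Fin 4) ℚ).linearIndependent
  have h2 := h.comp (fun a : D k => (a : Fin 4 →₀ ℕ)) Subtype.val_injective
  rw [MvPolynomial.coe_basisMonomials] at h2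
  exact h2

theorem hom_eq_span (k : ℕ) : homogeneousSubmodule (Fin 4) ℚ k =
    Submodule.span ℚ (Set.range fun a : D k => (monomial (a : Fin 4 →₀ ℕ) (1 : ℚ))) := by
  apply le_antisymm
  · intro G hG
    rw [mem_homogeneousSubmodule] at hG
    rw [← MvPolynomial.support_sum_monomial_coeff G]
    refine Submodule.sum_mem _ fun a ha => ?_
    have h1 : monomial a (coeff a G) = coeff a G • monomial a (1 : ℚ) := by
      rw [smul_monomial, smul_eq_mul, mul_one]
    rw [h1]
    refine Submodule.smul_mem _ _ (Submodule.subset_span ⟨⟨a, mem_D.2 ?_⟩, rfl⟩)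
    by_contra h2
    exact mem_support_iff.1 ha (hG.coeff_eq_zero h2)
  · rw [Submodule.span_le]
    rintro _ ⟨a, rfl⟩
    exact isHomogeneous_monomial _ (mem_D.1 a.2)

theorem finrank_hom (k : ℕ) :
    Module.finrank ℚ (homogeneousSubmodule (Fin 4) ℚ k) = (D k).card := by
  rw [hom_eq_span, finrank_span_eq_card (monomial_li k), Fintype.card_coe]

instance (k : ℕ) : Module.Finite ℚ (homogeneousSubmodule (Fin 4) ℚ k) := by
  rw [hom_eq_span]
  exact FiniteDimensional.span_of_finite ℚ (Set.finite_range _)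

theorem map_hom (x : Fin 4 → Ω) (k : ℕ) :
    (homogeneousSubmodule (Fin 4) ℚ k).map (aeval x).toLinearMap =
      (Submodule.span ℚ (Set.range x)) ^ k := by
  rw [← homogeneousSubmodule_one_pow, Submodule.map_pow, homogeneousSubmodule_one_eq_span_X,
    Submodule.map_span, ← Set.range_comp]
  congr 3
  funext i
  simp

/-- evaluation of forms of degree `k` -/
noncomputable def phi (x : Fin 4 → Ω) (k : ℕ) : homogeneousSubmodule (Fin 4) ℚ k →ₗ[ℚ] Ω :=
  (aeval x).toLinearMap.domRestrict (homogeneousSubmodule (Fin 4) ℚ k)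

theorem phi_range (x : Fin 4 → Ω) (k : ℕ) :
    LinearMap.range (phi x k) = (Submodule.span ℚ (Set.range x)) ^ k := by
  rw [← map_hom, phi, LinearMap.range_domRestrict]

/-- a homogeneous multiple of a form is the multiple by a form -/
theorem hom_factor {F Q : MvPolynomial (Fin 4) ℚ} {e k : ℕ} (hF : F.IsHomogeneous e)
    (hk : e ≤ k) (h : (F * Q).IsHomogeneous k) :
    F * Q = F * homogeneousComponent (k - e) Q := by
  have h1 : homogeneousComponent k (F * Q) = F * Q := homogeneousComponent_eq_self h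
  rw [← h1]
  conv_lhs => rw [← sum_homogeneousComponent Q, mul_sum, map_sum]
  have h2 : ∀ i, homogeneousComponent k (F * homogeneousComponent i Q) =
      if k = e + i then F * homogeneousComponent i Q else 0 := fun i =>
    homogeneousComponent_of_mem (hF.mul (homogeneousComponent_isHomogeneous i Q))
  rw [sum_congr rfl fun i _ => h2 i]
  by_cases h3 : k - e ∈ range (Q.totalDegree + 1)
  · rw [sum_eq_single (k - e)]
    · rw [if_pos (by omega)]
    · intro i _ hi
      rw [if_neg (by omega)]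
    · intro h4; exact absurd h3 h4
  · rw [homogeneousComponent_eq_zero _ _ (by rw [mem_range] at h3; omega), mul_zero]
    refine sum_eq_zero fun i hi => ?_
    rw [mem_range] at hi h3
    rw [if_neg (by omega)]

/-- multiplication by `F` -/
noncomputable def mu {F : MvPolynomial (Fin 4) ℚ} {e : ℕ} (hF : F.IsHomogeneous e) (k : ℕ)
    (hk : e ≤ k) : homogeneousSubmodule (Fin 4) ℚ (k - e) →ₗ[ℚ] homogeneousSubmodule (Fin 4) ℚ k :=
  ((LinearMap.mulLeft ℚ F).domRestrict _).codRestrict _ fun Q => by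
    have h1 := hF.mul Q.2
    rw [Nat.add_sub_cancel' hk] at h1
    exact h1

theorem mu_apply {F : MvPolynomial (Fin 4) ℚ} {e : ℕ} (hF : F.IsHomogeneous e) (k : ℕ)
    (hk : e ≤ k) (Q : homogeneousSubmodule (Fin 4) ℚ (k - e)) : (mu hF k hk Q).1 = F * Q.1 := rfl

theorem finrank_pow {x : Fin 4 → Ω} {e : ℕ} {F : MvPolynomial (Fin 4) ℚ} (h : Rel x e F) {k : ℕ}
    (hk : e ≤ k) :
    Module.finrank ℚ ((Submodule.span ℚ (Set.range x)) ^ k : Submodule ℚ Ω) + (D (k - e)).card =
      (D k).card := by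
  obtain ⟨hF, hirr, hx, hdvd⟩ := h
  have hF0 : F ≠ 0 := hirr.ne_zero
  have hker : LinearMap.ker (phi x k) = LinearMap.range (mu hF k hk) := by
    ext G
    rw [LinearMap.mem_ker, LinearMap.mem_range]
    constructor
    · intro hG
      have hG' : aeval x G.1 = 0 := hG
      obtain ⟨Q, hQ⟩ := hdvd k G.1 G.2 hG'
      have h1 : (F * Q).IsHomogeneous k := by rw [← hQ]; exact G.2
      refine ⟨⟨homogeneousComponent (k - e) Q, homogeneousComponent_isHomogeneous _ _⟩, ?_⟩
      apply Subtype.ext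
      rw [mu_apply, hQ]
      exact (hom_factor hF hk h1).symm
    · rintro ⟨Q, rfl⟩
      change aeval x (F * Q.1) = 0
      rw [map_mul, hx, zero_mul]
  have hinj : Function.Injective (mu hF k hk) := by
    intro Q Q' hQ
    have h1 := congrArg Subtype.val hQ
    rw [mu_apply, mu_apply] at h1
    exact Subtype.ext (mul_left_cancel₀ hF0 h1)
  have h1 := LinearMap.finrank_range_add_finrank_ker (phi x k)
  rw [phi_range, hker, LinearMap.finrank_range_of_inj hinj, finrank_hom, finrank_hom] at h1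
  exact h1

/-- the monomials not divisible by `m` are independent -/
theorem li_nd {x : Fin 4 → Ω} {e : ℕ} {F : MvPolynomial (Fin 4) ℚ} (h : Rel x e F)
    {m : Fin 4 →₀ ℕ} (hm : LexMin F m) (k : ℕ) :
    LinearIndependent ℚ (fun a : ((D k).filter fun a => ¬ m ≤ a) =>
      (aeval x (monomial (a : Fin 4 →₀ ℕ) (1 : ℚ)) : Ω)) := by
  rw [Fintype.linearIndependent_iff]
  intro g hg
  set G : MvPolynomial (Fin 4) ℚ := ∑ a : ((D k).filter fun a => ¬ m ≤ a),
    monomial (a : Fin 4 →₀ ℕ) (g a) with hG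
  have hGx : aeval x G = 0 := by
    rw [hG, map_sum, ← hg]
    refine sum_congr rfl fun a _ => ?_
    rw [← map_smul, smul_monomial, smul_eq_mul, mul_one]
  have hGh : G.IsHomogeneous k := by
    rw [hG]
    refine IsHomogeneous.sum _ _ _ fun a _ => ?_
    exact isHomogeneous_monomial _ (mem_D.1 (mem_filter.1 a.2).1)
  have hcoeff : ∀ a : ((D k).filter fun a => ¬ m ≤ a), coeff (a : Fin 4 →₀ ℕ) G = g a := by
    intro a
    rw [hG, coeff_sum, sum_eq_single a]
    · rw [coeff_monomial, if_pos rfl]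
    · intro b _ hb
      rw [coeff_monomial, if_neg]
      intro h2
      exact hb (Subtype.ext h2)
    · intro h2; exact absurd (mem_univ _) h2
  have hcoeff0 : ∀ b : Fin 4 →₀ ℕ, m ≤ b → coeff b G = 0 := by
    intro b hb
    rw [hG, coeff_sum]
    refine sum_eq_zero fun a _ => ?_
    rw [coeff_monomial, if_neg]
    intro h2
    have := (mem_filter.1 a.2).2
    rw [h2] at this
    exact this hb
  obtain ⟨Q, hQ⟩ := h.2.2.2 k G hGh hGx
  have hG0 : G = 0 := by
    by_contra hne
    have hQ0 : Q ≠ 0 := by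
      rintro rfl
      exact hne (by rw [hQ, mul_zero])
    obtain ⟨q, hq⟩ := coeff_mul_ne hm hQ0
    rw [← hQ] at hq
    exact hq (hcoeff0 _ le_self_add)
  intro a
  rw [← hcoeff, hG0, coeff_zero]

theorem mono_mem (x : Fin 4 → Ω) {k : ℕ} {a : Fin 4 →₀ ℕ} (ha : a ∈ D k) :
    (aeval x (monomial a (1 : ℚ)) : Ω) ∈ (Submodule.span ℚ (Set.range x)) ^ k := by
  rw [← map_hom]
  exact ⟨monomial a 1, isHomogeneous_monomial _ (mem_D.1 ha), rfl⟩

end Pool.Agent.Y734.EF
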