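import Pool.Agent.Y734.Stms

/-!
# Job EF: dimensions, and independence of the monomials not divisible by `m`
-/

set_option autoImplicit false

namespace Pool.Agent.Y734.EF

open MvPolynomial Finset

/-- exponents of degree `k` -/
noncomputable def D (k : ℕ) : Finset (Fin 4 →₀ ℕ) := finsuppAntidiag (univ : Finset (Fin 4)) k

theorem mem_D {k : ℕ} {a : Fin 4 →₀ ℕ} : a ∈ D k ↔ a.degree = k := by
  simp [D, mem_finsuppAntidiag, Finsupp.degree_eq_sum]

theorem card_D (k : ℕ) : ((D k).card : ℝ) = (k + 1) * (k + 2) * (k + 3) / 6 := by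
  have h1 : (D k).card = (k + 3).choose 3 := by
    rw [D, card_finsuppAntidiag_nat_eq_choose, card_univ, Fintype.card_fin]
    have h2 : 4 + k - 1 = k + 3 := by omega
    rw [h2, Nat.choose_symm_add]
  have h3 := Nat.ascFactorial_eq_factorial_mul_choose k 3
  rw [← h1] at h3
  simp only [Nat.ascFactorial, Nat.factorial] at h3
  have h4 : ((k : ℝ) + 1) * (k + 2) * (k + 3) = 6 * ((D k).card : ℝ) := by
    have h5 : (k + 1) * (k + 2) * (k + 3) = 6 * (D k).card := by
      rw [show (6 : ℕ) * (D k).card = (2 + 1) * ((1 + 1) * ((0 + 1) * 1)) * (D k).card by ring, ← h3]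
      ring
    exact_mod_cast h5
  rw [h4]
  ring

theorem sum_D_swap (k : ℕ) (i j : Fin 4) : ∑ a ∈ D k, a i = ∑ a ∈ D k, a j := by
  refine Finset.sum_bij' (fun a _ => Finsupp.equivMapDomain (Equiv.swap i j) a)
    (fun a _ => Finsupp.equivMapDomain (Equiv.swap i j) a) ?_ ?_ ?_ ?_ ?_
  · intro a ha
    rw [mem_D, Finsupp.degree_eq_sum] at ha ⊢
    rw [← ha, ← Equiv.sum_comp (Equiv.swap i j)]
    simp [Finsupp.equivMapDomain_apply]
  · intro a ha
    rw [mem_D, Finsupp.degree_eq_sum] at ha ⊢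
    rw [← ha, ← Equiv.sum_comp (Equiv.swap i j)]
    simp [Finsupp.equivMapDomain_apply]
  · intro a _
    ext t
    simp [Finsupp.equivMapDomain_apply]
  · intro a _
    ext t
    simp [Finsupp.equivMapDomain_apply]
  · intro a _
    simp [Finsupp.equivMapDomain_apply]

theorem sum_D (k : ℕ) (i : Fin 4) :
    (∑ a ∈ D k, (a i : ℝ)) = k * ((k + 1) * (k + 2) * (k + 3) / 6) / 4 := by
  have h1 : 4 * ∑ a ∈ D k, a i = k * (D k).card := by
    calc 4 * ∑ a ∈ D k, a i = ∑ j : Fin 4, ∑ a ∈ D k, a i := by simp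
      _ = ∑ j : Fin 4, ∑ a ∈ D k, a j := sum_congr rfl fun j _ => sum_D_swap k i j
      _ = ∑ a ∈ D k, ∑ j : Fin 4, a j := sum_comm
      _ = ∑ a ∈ D k, k := sum_congr rfl fun a ha => by
          rw [mem_D, Finsupp.degree_eq_sum] at ha
          exact ha
      _ = k * (D k).card := by rw [sum_const, smul_eq_mul, mul_comm]
  have h2 : (4 : ℝ) * ∑ a ∈ D k, (a i : ℝ) = k * ((D k).card : ℝ) := by exact_mod_cast h1
  rw [card_D] at h2
  linarith

/-- total weight over `D k` -/
theorem wsum_D (k : ℕ) (w : Fin 4 → ℝ) : ∑ a ∈ D k, ∑ i, w i * (a i : ℝ) =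
    (∑ i, w i) * (k * ((k + 1) * (k + 2) * (k + 3) / 6)) / 4 := by
  rw [sum_comm]
  have h1 : ∀ i, ∑ a ∈ D k, w i * (a i : ℝ) = w i * (k * ((k + 1) * (k + 2) * (k + 3) / 6) / 4) := by
    intro i
    rw [← mul_sum, sum_D]
  rw [sum_congr rfl fun i _ => h1 i, ← sum_mul]
  ring

/-- exponents of degree `k` divisible by `m` -/
theorem sum_dvd {k e : ℕ} (hk : e ≤ k) {m : Fin 4 →₀ ℕ} (hm : m.degree = e) {β : Type}
    [AddCommMonoid β] (f : (Fin 4 →₀ ℕ) → β) :
    ∑ a ∈ (D k).filter (fun a => m ≤ a), f a = ∑ a ∈ D (k - e), f (a + m) := by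
  refine Finset.sum_bij' (fun a _ => a - m) (fun a _ => a + m) ?_ ?_ ?_ ?_ ?_
  · intro a ha
    rw [mem_filter, mem_D] at ha
    rw [mem_D]
    have h1 : (a - m + m).degree = k := by rw [tsub_add_cancel_of_le ha.2, ha.1]
    rw [map_add, hm] at h1
    omega
  · intro a ha
    rw [mem_D] at ha
    rw [mem_filter, mem_D, map_add, hm, ha]
    exact ⟨by omega, le_add_self⟩
  · intro a ha
    rw [mem_filter] at ha
    exact tsub_add_cancel_of_le ha.2
  · intro a _
    exact add_tsub_cancel_right a m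
  · intro a ha
    rw [mem_filter] at ha
    rw [tsub_add_cancel_of_le ha.2]

theorem sum_nd {k e : ℕ} (hk : e ≤ k) {m : Fin 4 →₀ ℕ} (hm : m.degree = e)
    (f : (Fin 4 →₀ ℕ) → ℝ) :
    ∑ a ∈ (D k).filter (fun a => ¬ m ≤ a), f a = ∑ a ∈ D k, f a - ∑ a ∈ D (k - e), f (a + m) := by
  rw [← sum_dvd hk hm, ← sum_filter_add_sum_filter_not (D k) (fun a => m ≤ a) f]
  ring

theorem card_nd {k e : ℕ} (hk : e ≤ k) {m : Fin 4 →₀ ℕ} (hm : m.degree = e) :
    ((D k).filter (fun a => ¬ m ≤ a)).card + (D (k - e)).card = (D k).card := by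
  have h1 : ((D k).filter (fun a => m ≤ a)).card = (D (k - e)).card := by
    have := sum_dvd hk hm (fun _ => (1 : ℕ))
    simpa using this
  rw [← h1, add_comm]
  exact card_filter_add_card_filter_not (s := D k) (fun a => m ≤ a)

/-! ### The lexicographically smallest exponent -/

theorem lexMin_iff {F : MvPolynomial (Fin 4) ℚ} {m : Fin 4 →₀ ℕ} : LexMin F m ↔
    m ∈ F.support ∧ ∀ m' ∈ F.support, toLex m ≤ toLex m' := by
  unfold LexMin
  refine and_congr_right fun hm => forall₂_congr fun m' _ => ?_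
  rw [le_iff_lt_or_eq, Finsupp.Lex.lt_iff]
  constructor
  · intro h
    by_cases hmm : m' = m
    · right; rw [hmm]
    · obtain ⟨i, h1, h2⟩ := h hmm
      exact Or.inl ⟨i, h2, h1⟩
  · rintro (⟨i, h1, h2⟩ | h) hne
    · exact ⟨i, h2, h1⟩
    · exact absurd (toLex.injective h).symm hne

theorem exists_lexMin {Q : MvPolynomial (Fin 4) ℚ} (hQ : Q ≠ 0) : ∃ q, LexMin Q q := by
  obtain ⟨q, hq, hqmin⟩ := Finset.exists_min_image Q.support toLex (by
    rw [Finset.nonempty_iff_ne_empty]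
    intro h
    exact hQ (by simpa using h))
  exact ⟨q, lexMin_iff.2 ⟨hq, hqmin⟩⟩

/-- a nonzero multiple of `F` has an exponent divisible by `m` -/
theorem coeff_mul_ne {F Q : MvPolynomial (Fin 4) ℚ} {m : Fin 4 →₀ ℕ} (hF : LexMin F m)
    (hQ : Q ≠ 0) : ∃ q : Fin 4 →₀ ℕ, coeff (m + q) (F * Q) ≠ 0 := by
  obtain ⟨q, hq, hqmin⟩ := exists_lexMin hQ
  obtain ⟨hm, hmin⟩ := hF
  refine ⟨q, ?_⟩
  rw [coeff_mul, Finset.sum_eq_single (m, q)]
  · exact mul_ne_zero (mem_support_iff.1 hm) (mem_support_iff.1 hq)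
  · rintro ⟨a, b⟩ hab hne
    rw [HasAntidiagonal.mem_antidiagonal] at hab
    simp only at hab ⊢
    by_contra h
    have ha : a ∈ F.support := mem_support_iff.2 (left_ne_zero_of_mul h)
    have hb : b ∈ Q.support := mem_support_iff.2 (right_ne_zero_of_mul h)
    have hsum : ∀ t, a t + b t = m t + q t := fun t => by
      have := DFunLike.congr_fun hab t
      simpa using this
    by_cases ham : a = m
    · subst ham
      have : b = q := add_left_cancel hab
      exact hne (by rw [this])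
    · obtain ⟨i, h1, h2⟩ := hmin a ha ham
      have h3 := hsum i
      have hbq : b ≠ q := by
        rintro rfl
        omega
      obtain ⟨i', h4, h5⟩ := hqmin b hb hbq
      have h6 := hsum i'
      rcases lt_trichotomy i i' with h7 | h7 | h7
      · have := h5 i h7
        omega
      · subst h7
        omega
      · have := h2 i' h7
        omega
  · intro h
    exfalso
    apply h
    rw [HasAntidiagonal.mem_antidiagonal]

end Pool.Agent.Y734.EF
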